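import Pool.Agent.helper53.ORT.Spec

set_option autoImplicit false

namespace Pool.Agent.ORT

open Module Pool.Agent.GS

open scoped BigOperators

noncomputable section

theorem FLS_sum {F V ι : Type} [Field F] [AddCommGroup V] [Module F V] [Fintype ι]
    {B : LinearMap.BilinForm F V} {a : ι → V} (h : Og B a) (c : ι → F) (j : ι) :
    B (∑ i, c i • a i) (a j) = c j * B (a j) (a j) := by
  rw [map_sum, LinearMap.sum_apply, Finset.sum_eq_single j]
  · rw [map_smul, LinearMap.smul_apply, smul_eq_mul]
  · intro i _ hij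
    rw [map_smul, LinearMap.smul_apply, smul_eq_mul, h.o i j hij, mul_zero]
  · intro hj
    exact absurd (Finset.mem_univ j) hj

theorem FLS_span {F V ι : Type} [Field F] [AddCommGroup V] [Module F V] [Fintype ι]
    {B : LinearMap.BilinForm F V} {a : ι → V} (h : Og B a) (x : V) :
    ∀ s ∈ Submodule.span F (Set.range a),
      B (∑ i, (2 * B x (a i) / B (a i) (a i)) • a i) s = 2 * B x s := by
  intro s hs
  induction hs using Submodule.span_induction with
  | mem y hy =>
    obtain ⟨j, rfl⟩ := hy
    rw [FLS_sum h, div_mul_cancel₀ _ (h.n j)]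
  | zero => rw [map_zero, map_zero, mul_zero]
  | add y z _ _ hy hz => rw [map_add, map_add, hy, hz, mul_add]
  | smul c y _ hy =>
    rw [map_smul, map_smul, hy, smul_eq_mul, smul_eq_mul]
    ring

theorem FLS_zero {F V ι : Type} [Field F] [AddCommGroup V] [Module F V] [Fintype ι]
    {B : LinearMap.BilinForm F V} {a : ι → V} (h : Og B a) (d : V)
    (hd : d ∈ Submodule.span F (Set.range a)) (h0 : ∀ i, B d (a i) = 0) : d = 0 := by
  obtain ⟨c, rfl⟩ := (Submodule.mem_span_range_iff_exists_fun F).1 hd
  refine Finset.sum_eq_zero fun i _ => ?_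
  have e := h0 i
  rw [FLS_sum h] at e
  rcases mul_eq_zero.1 e with e | e
  · rw [e, zero_smul]
  · exact absurd e (h.n i)

theorem FLS : FLS_stmt := by
  intro F V ι κ _ _ _ _ _ B hB a b ha hb hs
  ext x
  rw [fl_apply ha, fl_apply hb]
  have m1 : ∑ i, (2 * B x (a i) / B (a i) (a i)) • a i ∈ Submodule.span F (Set.range a) :=
    Submodule.sum_mem _ fun i _ => Submodule.smul_mem _ _ (Submodule.subset_span ⟨i, rfl⟩)
  have m2 : ∑ i, (2 * B x (b i) / B (b i) (b i)) • b i ∈ Submodule.span F (Set.range a) := by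
    rw [hs]
    exact Submodule.sum_mem _ fun i _ =>
      Submodule.smul_mem _ _ (Submodule.subset_span ⟨i, rfl⟩)
  have e : ∑ i, (2 * B x (a i) / B (a i) (a i)) • a i -
      ∑ i, (2 * B x (b i) / B (b i) (b i)) • b i = 0 := by
    refine FLS_zero ha _ (Submodule.sub_mem _ m1 m2) fun i => ?_
    have hi : a i ∈ Submodule.span F (Set.range a) := Submodule.subset_span ⟨i, rfl⟩
    have hi' : a i ∈ Submodule.span F (Set.range b) := by
      rw [← hs]
      exact hi
    rw [map_sub, LinearMap.sub_apply, FLS_span ha x _ hi, FLS_span hb x _ hi', sub_self]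
  rw [sub_eq_zero.1 e]

end

end Pool.Agent.ORT
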